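import Pool.Agent.Helper96.Wav.ScaleFrame

/-!
Module CONJ of MP_d629b1_an: conjugation of the dilation by a rational matrix on the frequency side.
-/

set_option autoImplicit false

open MeasureTheory Matrix
open scoped ComplexConjugate ContDiff

noncomputable section

namespace Wav

open Pool.Agent.Helper54.Wav Pool.Agent.Helper96.Wav

/-- the kernel of the functions `Gf g D χ s` -/
lemma conj_ker {n L : ℕ} (g : Fin L → (Fin n → ℝ) → ℂ) (D : Matrix (Fin n) (Fin n) ℤ)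
    (hD : D.det ≠ 0) [Fintype ((Fin n → ℤ) ⧸ lat D)]
    (ε : Fin (D.det.natAbs * L) ≃ AddChar ((Fin n → ℤ) ⧸ lat D) ℂ × Fin L)
    (ξ μ : Fin n → ℝ) :
    Pool.Agent.Helper54.Wav.ker (fun i => Gf g D (ε i).1 (ε i).2) ξ μ =
      Pool.Agent.Helper54.Wav.ker g ((D.map (fun z : ℤ => (z : ℝ)))⁻¹ *ᵥ ξ)
        ((D.map (fun z : ℤ => (z : ℝ)))⁻¹ *ᵥ μ) := by
  classical
  have hcard := card_lat hD
  have hne : D.det.natAbs ≠ 0 := by simpa using hD
  have h7 : (D.det.natAbs : ℂ) ≠ 0 := by exact_mod_cast hne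
  by_cases hμ : ∃ m : Fin n → ℤ, μ = zv m
  · obtain ⟨m, rfl⟩ := hμ
    rw [Pool.Agent.Helper54.Wav.ker, if_pos ⟨m, rfl⟩]
    show ∑ i, Gf g D (ε i).1 (ε i).2 ξ * conj (Gf g D (ε i).1 (ε i).2 (ξ + zv m)) = _
    rw [Equiv.sum_comp ε (fun p : AddChar ((Fin n → ℤ) ⧸ lat D) ℂ × Fin L =>
      Gf g D p.1 p.2 ξ * conj (Gf g D p.1 p.2 (ξ + zv m))), Fintype.sum_prod_type]
    have h1 : ∀ (χ : AddChar ((Fin n → ℤ) ⧸ lat D) ℂ),
        ∑ s, Gf g D χ s ξ * conj (Gf g D χ s (ξ + zv m)) =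
        χ (Submodule.Quotient.mk m) * (1 / (D.det.natAbs : ℂ) *
          ∑ s, (g s ((D.map (fun z : ℤ => (z : ℝ)))⁻¹ *ᵥ ξ) *
          conj (g s ((D.map (fun z : ℤ => (z : ℝ)))⁻¹ *ᵥ (ξ + zv m))))) := by
      intro χ
      rw [Finset.mul_sum, Finset.mul_sum]
      refine Finset.sum_congr rfl fun s _ => ?_
      rw [Gf_mul]
      have h2 : ∑ i, gam χ i * (ξ + zv m) i = ∑ i, gam χ i * ξ i + ∑ i, gam χ i * m i := by
        rw [← Finset.sum_add_distrib]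
        refine Finset.sum_congr rfl fun i _ => ?_
        rw [Pi.add_apply, zv]
        ring
      rw [h2, ee_add, ee_gam, ee_neg]
      have h8 := ee_ne_zero (∑ i, gam χ i * ξ i)
      field_simp
    simp_rw [h1]
    rw [← Finset.sum_mul, AddChar.sum_apply_eq_ite, Pool.Agent.Helper54.Wav.ker]
    have h6 : (Fintype.card ((Fin n → ℤ) ⧸ lat D) : ℂ) = (D.det.natAbs : ℂ) := by
      rw [← hcard, Nat.card_eq_fintype_card]
    by_cases h : (Submodule.Quotient.mk m : (Fin n → ℤ) ⧸ lat D) = 0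
    · obtain ⟨m1, hm1⟩ := (Submodule.Quotient.mk_eq_zero _).mp h
      have hm1' : D *ᵥ m1 = m := hm1
      rw [if_pos h, h6, if_pos ⟨m1, by rw [← hm1', inv_mulVec_zv hD]⟩, ← mul_assoc,
        mul_one_div_cancel h7, one_mul]
      refine Finset.sum_congr rfl fun s _ => ?_
      rw [Matrix.mulVec_add]
    · rw [if_neg h, zero_mul, if_neg]
      rintro ⟨m1, hm1⟩
      apply h
      rw [Submodule.Quotient.mk_eq_zero]
      refine ⟨m1, ?_⟩
      have h9 : zv m = D.map (fun z : ℤ => (z : ℝ)) *ᵥ zv m1 := by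
        rw [← hm1]
        exact ((hom hD).left_inv (zv m)).symm
      rw [map_mulVec_zv] at h9
      ext i
      have h10 := congrFun h9 i
      simp only [zv] at h10
      exact_mod_cast h10.symm
  · rw [Pool.Agent.Helper54.Wav.ker, if_neg hμ, Pool.Agent.Helper54.Wav.ker, if_neg]
    rintro ⟨m1, hm1⟩
    apply hμ
    refine ⟨D *ᵥ m1, ?_⟩
    rw [← map_mulVec_zv, ← hm1]
    exact ((hom hD).left_inv μ).symm

/-- change of variables for a matrix -/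
lemma integral_mulVec {n : ℕ} (M : Matrix (Fin n) (Fin n) ℝ) (hM : M.det ≠ 0)
    (f : (Fin n → ℝ) → ℝ) (hf : Continuous f) :
    ∫ ξ, f (M *ᵥ ξ) = |M.det|⁻¹ * ∫ ξ, f ξ := by
  have h := Real.map_matrix_volume_pi_eq_smul_volume_pi hM
  have hc : Continuous (Matrix.toLin' M) := LinearMap.continuous_on_pi _
  have h1 : ∫ ξ, f ξ ∂(Measure.map (Matrix.toLin' M) (volume : Measure (Fin n → ℝ))) =
      ∫ ξ, f (M *ᵥ ξ) := by
    rw [integral_map hc.measurable.aemeasurable hf.aestronglyMeasurable]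
    rfl
  rw [← h1, h, integral_smul_measure, smul_eq_mul, ENNReal.toReal_ofReal (abs_nonneg _), abs_inv]

open Pool.Agent.Helper54.Wav in
theorem conj_freq {n L : ℕ} (hn : 0 < n) (B B' : Matrix (Fin n) (Fin n) ℝ) (hB' : B'.det ≠ 0)
    (D : Matrix (Fin n) (Fin n) ℤ) (hD : D.det ≠ 0)
    (hBB : B * D.map (fun z : ℤ => (z : ℝ)) = D.map (fun z : ℤ => (z : ℝ)) * B')
    (hL : 0 < L) (g : Fin L → (Fin n → ℝ) → ℂ) (hg : ∀ l, ContDiff ℝ ∞ (g l))
    (hc : ∀ l, HasCompactSupport (g l)) (h0 : ∃ ε > 0, ∀ l ξ, ‖ξ‖ < ε → g l ξ = 0)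
    (h1 : ∀ l, ∫ ξ, ‖g l ξ‖ ^ 2 = 1)
    (h2 : ∀ ξ μ, ξ ≠ 0 → ∑ᶠ j : ℤ, Pool.Agent.Helper54.Wav.ker g ((B' ^ (-j)) *ᵥ ξ)
      ((B' ^ (-j)) *ᵥ μ) = if μ = 0 then 1 else 0) :
    ∃ (L' : ℕ) (g' : Fin L' → (Fin n → ℝ) → ℂ), 0 < L' ∧ (∀ l, ContDiff ℝ ∞ (g' l)) ∧
      (∀ l, HasCompactSupport (g' l)) ∧ (∃ ε > 0, ∀ l ξ, ‖ξ‖ < ε → g' l ξ = 0) ∧
      (∀ l, ∫ ξ, ‖g' l ξ‖ ^ 2 = 1) ∧
      (∀ ξ μ, ξ ≠ 0 → ∑ᶠ j : ℤ, Pool.Agent.Helper54.Wav.ker g' ((B ^ (-j)) *ᵥ ξ)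
        ((B ^ (-j)) *ᵥ μ) = if μ = 0 then 1 else 0) := by
  classical
  have hcard := card_lat hD
  have hne : D.det.natAbs ≠ 0 := by simpa using hD
  have : Finite ((Fin n → ℤ) ⧸ lat D) := Nat.finite_of_card_ne_zero (by rw [hcard]; exact hne)
  have : Fintype ((Fin n → ℤ) ⧸ lat D) := Fintype.ofFinite _
  have hcc : Fintype.card (Fin D.det.natAbs) =
      Fintype.card (AddChar ((Fin n → ℤ) ⧸ lat D) ℂ) := by
    rw [Fintype.card_fin, AddChar.card_eq, ← hcard, Nat.card_eq_fintype_card]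
  let ε : Fin (D.det.natAbs * L) ≃ AddChar ((Fin n → ℤ) ⧸ lat D) ℂ × Fin L :=
    finProdFinEquiv.symm.trans (Equiv.prodCongr (Fintype.equivOfCardEq hcc) (Equiv.refl _))
  have hdet : (D.map (fun z : ℤ => (z : ℝ))).det = ((D.det : ℤ) : ℝ) := by
    have := (Int.castRingHom ℝ).map_det D
    simpa [RingHom.mapMatrix_apply] using this.symm
  have hdet0 := det_map hD
  refine ⟨D.det.natAbs * L, fun i => Gf g D (ε i).1 (ε i).2, ?_, ?_, ?_, ?_, ?_, ?_⟩
  · positivity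
  · intro s
    unfold Gf
    refine (contDiff_const.mul ?_).mul ?_
    · unfold ee
      refine Complex.contDiff_exp.comp ?_
      refine ContDiff.mul (contDiff_const.mul ?_) contDiff_const
      refine Complex.ofRealCLM.contDiff.comp ?_
      refine ContDiff.neg (ContDiff.sum fun i _ => contDiff_const.mul (contDiff_apply ℝ ℝ i))
    · refine (hg _).comp ?_
      rw [contDiff_pi]
      intro i
      unfold Matrix.mulVec dotProduct
      exact ContDiff.sum fun j _ => contDiff_const.mul (contDiff_apply ℝ ℝ j)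
  · intro s
    unfold Gf
    exact ((hc (ε s).2).comp_homeomorph (hom hD)).mul_left
  · obtain ⟨δ, hδ, hδ0⟩ := h0
    have hcont : Continuous fun ξ : Fin n → ℝ => (D.map (fun z : ℤ => (z : ℝ)))⁻¹ *ᵥ ξ :=
      (hom hD).continuous_toFun
    have h3 := (Metric.continuousAt_iff.mp (hcont.continuousAt (x := 0))) δ hδ
    obtain ⟨η, hη, hη0⟩ := h3
    refine ⟨η, hη, fun l ξ hξ => ?_⟩
    show Gf g D (ε l).1 (ε l).2 ξ = 0
    rw [Gf, hδ0 _ _ ?_, mul_zero]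
    have h4 := hη0 (x := ξ) (by simpa using hξ)
    simpa [Matrix.mulVec_zero] using h4
  · intro s
    have h3 : ∀ ξ, ‖Gf g D (ε s).1 (ε s).2 ξ‖ ^ 2 = (1 / (D.det.natAbs : ℝ)) *
        ‖g (ε s).2 ((D.map (fun z : ℤ => (z : ℝ)))⁻¹ *ᵥ ξ)‖ ^ 2 := by
      intro ξ
      have hee : ∀ a : ℝ, ‖ee a‖ = 1 := by
        intro a
        rw [ee, show (2 * Real.pi * a * Complex.I : ℂ) = ((2 * Real.pi * a : ℝ) : ℂ) * Complex.I by
          push_cast; ring, Complex.norm_exp_ofReal_mul_I]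
      rw [Gf, norm_mul, norm_mul, hee, mul_one, mul_pow, Complex.norm_real, Real.norm_eq_abs, sq_abs,
        div_pow, one_pow, Real.sq_sqrt (Nat.cast_nonneg _)]
    show ∫ ξ, ‖Gf g D (ε s).1 (ε s).2 ξ‖ ^ 2 = 1
    simp_rw [h3]
    rw [integral_const_mul]
    have hinv : ((D.map (fun z : ℤ => (z : ℝ)))⁻¹).det ≠ 0 := by
      rw [Matrix.det_nonsing_inv, Ring.inverse_eq_inv']
      exact inv_ne_zero hdet0
    rw [integral_mulVec _ hinv (fun ξ => ‖g (ε s).2 ξ‖ ^ 2) ((hg _).continuous.norm.pow 2), h1,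
      Matrix.det_nonsing_inv, Ring.inverse_eq_inv', hdet, abs_inv, inv_inv, mul_one]
    have h5 : |((D.det : ℤ) : ℝ)| = (D.det.natAbs : ℝ) := by
      rw [← Int.cast_abs, Int.abs_eq_natAbs]
      rfl
    rw [h5]
    have h7 : (D.det.natAbs : ℝ) ≠ 0 := by exact_mod_cast hne
    field_simp
  · intro ξ μ hξ
    have hB : B.det ≠ 0 := by
      have h3 := congrArg Matrix.det hBB
      rw [Matrix.det_mul, Matrix.det_mul] at h3
      intro h4
      rw [h4, zero_mul] at h3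
      exact (mul_ne_zero hdet0 hB') h3.symm
    have hsc : SemiconjBy (D.map (fun z : ℤ => (z : ℝ))) B' B := hBB.symm
    have hpow : ∀ j : ℤ, (D.map (fun z : ℤ => (z : ℝ)))⁻¹ * B ^ j =
        B' ^ j * (D.map (fun z : ℤ => (z : ℝ)))⁻¹ := by
      intro j
      have h3 := Matrix.SemiconjBy.zpow_right (isUnit_iff_ne_zero.mpr hB')
        (isUnit_iff_ne_zero.mpr hB) hsc j
      have h4 : D.map (fun z : ℤ => (z : ℝ)) * B' ^ j = B ^ j * D.map (fun z : ℤ => (z : ℝ)) := h3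
      have h5 : B' ^ j = (D.map (fun z : ℤ => (z : ℝ)))⁻¹ *
          (B ^ j * D.map (fun z : ℤ => (z : ℝ))) := by
        rw [← h4, ← Matrix.mul_assoc, Matrix.nonsing_inv_mul _ (isUnit_iff_ne_zero.mpr hdet0),
          Matrix.one_mul]
      rw [h5, Matrix.mul_assoc, Matrix.mul_assoc,
        Matrix.mul_nonsing_inv _ (isUnit_iff_ne_zero.mpr hdet0), Matrix.mul_one]
    have hne0 : ∀ x : Fin n → ℝ, (D.map (fun z : ℤ => (z : ℝ)))⁻¹ *ᵥ x = 0 ↔ x = 0 := by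
      intro x
      constructor
      · intro h
        have h3 := (hom hD).left_inv x
        rw [← h3]
        show D.map (fun z : ℤ => (z : ℝ)) *ᵥ ((D.map (fun z : ℤ => (z : ℝ)))⁻¹ *ᵥ x) = 0
        rw [h, Matrix.mulVec_zero]
      · rintro rfl
        exact Matrix.mulVec_zero _
    have h3 := h2 ((D.map (fun z : ℤ => (z : ℝ)))⁻¹ *ᵥ ξ)
      ((D.map (fun z : ℤ => (z : ℝ)))⁻¹ *ᵥ μ) (fun h => hξ ((hne0 ξ).mp h))
    simp only [hne0] at h3
    rw [← h3]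
    refine finsum_congr fun j => ?_
    rw [conj_ker g D hD ε]
    simp only [Matrix.mulVec_mulVec, hpow]

end Wav
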